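import Mathlib

set_option autoImplicit false

/-! The recursive condition on a triple `(g, N, x)`. -/

namespace Pool.Agent.Lib.MP_2d59ee_ag

/-- `Adm g N x`: there are coprime `q > e > 0` and `d > 0` with `e N = q x + d`, `d ∣ x` and
`d ∣ e g`, such that either `e (N mod q) < d` (and `g ≥ 3`), or `e < g d` and
`(N, x) = (M, y) + r (q, e)` with `r, y > 0`, where `Adm g' M y` for a common divisor `g'` of
`g, d, M, y, r` with `e g'` not divisible by `d`. -/
inductive Adm : ℕ → ℕ → ℕ → Prop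
  | line (g N x q e d : ℕ) (hg : 3 ≤ g) (hx : 0 < x) (he : 0 < e) (heq : e < q)
      (cop : Nat.Coprime q e) (hd : 0 < d) (hdet : e * N = q * x + d) (hdx : d ∣ x)
      (hdg : d ∣ e * g) (hmod : e * (N % q) < d) : Adm g N x
  | step (g N x q e d r g' M y : ℕ) (he : 0 < e) (heq : e < q)
      (cop : Nat.Coprime q e) (hd : 0 < d) (hdet : e * N = q * x + d) (hdx : d ∣ x)
      (hdg : d ∣ e * g) (hed : e < g * d) (hr : 0 < r) (hN : N = M + q * r)
      (hx : x = y + e * r) (hy : 0 < y) (hg' : g' ∣ g) (hd' : g' ∣ d) (hM' : g' ∣ M)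
      (hy' : g' ∣ y) (hr' : g' ∣ r) (hnd : ¬ d ∣ e * g') (h : Adm g' M y) : Adm g N x

end Pool.Agent.Lib.MP_2d59ee_ag
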