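import Mathlib
import Pool.Agent.Lib.MP_2d59ee_ag.R.R8
import Pool.Agent.Lib.MP_2d59ee_ag.Q.Adm

set_option autoImplicit false

/-! Low states satisfy the recursive condition `Adm`; one step of the recursion. -/

namespace Pool.Agent.Lib.MP_2d59ee_ag

/-- the data of the first level of a low state satisfy `e < G d` -/
theorem low_level_e (a b : ℕ) (ha : 2 ≤ a) (hlt : a < b) (hab : Nat.Coprime a b) (N : ℕ) :
    ∀ (E G : ℕ) (α : ℤ) (k : ℚ), GoodG a b N E α k G → (E : ℚ) - k ≤ 1 → ∀ x : ℕ,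
    (x : ℤ) = E * N - α →
    ∃ (K : ℚ) (q d e j N₀ σ G' : ℕ), k < K ∧ 2 ≤ q ∧ 0 < e ∧ e < q ∧ 0 < d ∧
      (e : ℚ) = q * (E - K) ∧ Nat.Coprime q e ∧ e * N = q * x + d ∧
      0 < G' ∧ G' ∣ G ∧ G' ∣ d ∧ G' ∣ N ∧ G' ∣ N₀ ∧ G' ∣ σ ∧ d ∣ e * G ∧
          ¬ d ∣ e * G' ∧ 0 < j ∧ j * d = x ∧ N = N₀ + q * σ ∧ 0 < σ ∧ e * N₀ ≠ d ∧
          e < G * d ∧
          ((e * N₀ < d) ∨
           (d < e * N₀ ∧ ∃ (α₀ : ℤ) (x' : ℕ), G' ∣ x' ∧ GoodG a b N₀ E α₀ K G' ∧
              (E : ℚ) - K ≤ 1 ∧ (x' : ℤ) = E * N₀ - α₀ ∧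
              e * N₀ = q * x' + d ∧ 2 ≤ x')) := by
  induction N using Nat.strong_induction_on with
  | _ N ih =>
  intro E G α k g hE1 x hxx
  obtain ⟨K, q, d, e, j, N₀, σ, G', hkK, hq2, he, heq, hd, heK, cop, heN, h1, h2, h3, h4, h5, h6,
    h7, h8, hj0, h9, h10, h11, h12, hcase⟩ := low_level a b ha hlt hab g hE1 x hxx
  have hG0 := g.hG
  have hσq : 2 * σ ≤ q * σ := Nat.mul_le_mul_right σ hq2
  have hG'G : G' ≤ G := Nat.le_of_dvd hG0 h2
  refine ⟨K, q, d, e, j, N₀, σ, G', hkK, hq2, he, heq, hd, heK, cop, heN, h1, h2, h3, h4, h5, h6,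
    h7, h8, hj0, h9, h10, h11, h12, ?_, ?_⟩
  · rcases hcase with ⟨hmin, -⟩ | ⟨hmaj, α₀, x', i1, g₀, hEK, i3, i4, i5⟩
    · obtain ⟨κ, p, h, hκ, hp, hh, hd', he', hcop, hG⟩ := frac hd he
      have hpG : p ≤ G := Nat.le_of_dvd hG0 ((hG G).1 h7)
      have hq := minor_q cop heN h10 hmin hκ hd' he'
      have : G * 1 ≤ G * d := Nat.mul_le_mul_left G hd
      omega
    · have hlt₀ : N₀ < N := by omega
      obtain ⟨K', q', d', e', j', N', σ', G'', hkK', hq2', he', heq', hd', heK', cop', heN', -, -,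
        -, -, -, -, -, -, -, -, -, -, -, hb, -⟩ := ih N₀ hlt₀ E G' α₀ K g₀ hEK x' i3
      -- `e' q < e q'`
      have hqQ : (0 : ℚ) < q := by exact_mod_cast (by omega : 0 < q)
      have hqQ' : (0 : ℚ) < q' := by exact_mod_cast (by omega : 0 < q')
      have k1 : (e' : ℚ) * q < e * q' := by
        rw [heK', heK]
        have : (q : ℚ) * q' * (E - K') < q * q' * (E - K) :=
          mul_lt_mul_of_pos_left (by linarith) (mul_pos hqQ hqQ')
        linarith
      have k2 : e' * q < e * q' := by exact_mod_cast k1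
      -- `e d' < e' d`
      have k3 : e' * (e * N₀) = e * (e' * N₀) := by ring
      rw [i4, heN'] at k3
      have k4 : e' * q * x' < e * q' * x' := Nat.mul_lt_mul_of_pos_right k2 (by omega)
      have k5 : e' * (q * x' + d) = e' * q * x' + e' * d := by ring
      have k6 : e * (q' * x' + d') = e * q' * x' + e * d' := by ring
      have k7 : e * d' < e' * d := by omega
      -- conclusion
      have k8 : e' * d < G' * d' * d := Nat.mul_lt_mul_of_pos_right hb hd
      have k9 : e * d' < G' * d * d' := by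
        calc e * d' < e' * d := k7
          _ < G' * d' * d := k8
          _ = G' * d * d' := by ring
      have k10 : e < G' * d := Nat.lt_of_mul_lt_mul_right k9
      exact lt_of_lt_of_le k10 (Nat.mul_le_mul_right d hG'G)
  · rcases hcase with ⟨hmin, -⟩ | ⟨hmaj, α₀, x', i1, g₀, hEK, i3, i4, i5⟩
    · exact Or.inl hmin
    · exact Or.inr ⟨hmaj, α₀, x', i1, g₀, hEK, i3, i4, i5⟩

/-- a low state satisfies the recursive condition -/
theorem low_adm (a b : ℕ) (ha : 2 ≤ a) (hlt : a < b) (hab : Nat.Coprime a b) (N : ℕ) :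
    ∀ (E G : ℕ) (α : ℤ) (k : ℚ), GoodG a b N E α k G → (E : ℚ) - k ≤ 1 → ∀ x : ℕ,
    (x : ℤ) = E * N - α → Adm G N x := by
  induction N using Nat.strong_induction_on with
  | _ N ih =>
  intro E G α k g hE1 x hxx
  obtain ⟨K, q, d, e, j, N₀, σ, G', hkK, hq2, he, heq, hd, heK, cop, heN, h1, h2, h3, h4, h5, h6,
    h7, h8, hj0, h9, h10, h11, h12, hbd, hcase⟩ := low_level_e a b ha hlt hab N E G α k g hE1 x hxx
  have hσq : 2 * σ ≤ q * σ := Nat.mul_le_mul_right σ hq2
  have hdx : d ∣ x := ⟨j, by rw [← h9, mul_comm]⟩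
  have hx0 : 0 < x := by rw [← h9]; exact Nat.mul_pos hj0 hd
  rcases hcase with hmin | ⟨hmaj, α₀, x', i1, g₀, hEK, i3, i4, i5⟩
  · refine Adm.line G N x q e d (low_three a b ha hlt hab N E α k G g hE1) hx0 he heq cop hd heN
      hdx h7 ?_
    have e1 : N % q ≤ N₀ := by
      rw [h10, Nat.add_mul_mod_self_left]
      exact Nat.mod_le _ _
    exact lt_of_le_of_lt (Nat.mul_le_mul_left e e1) hmin
  · have hxx' : x = x' + e * σ := by
      have e1 : q * x + d = q * (x' + e * σ) + d := by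
        rw [← heN, h10, Nat.mul_add, i4]; ring
      have e2 : q * x = q * (x' + e * σ) := by omega
      exact Nat.eq_of_mul_eq_mul_left (by omega) e2
    exact Adm.step G N x q e d σ G' N₀ x' he heq cop hd heN hdx h7 hbd h11 h10 hxx' (by omega)
      h2 h3 h5 i1 h6 h8 (ih N₀ (by omega) E G' α₀ K g₀ hEK x' i3)

theorem adm_three {g N x : ℕ} (h : Adm g N x) : 3 ≤ g := by
  induction h with
  | line g N x q e d hg hx he heq cop hd hdet hdx hdg hmod => exact hg
  | step g N x q e d r g' M y he heq cop hd hdet hdx hdg hed hr hN hx hy hg' hd' hM' hy' hr' hnd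
      h ih =>
    have hg0 : 0 < g := by
      rcases Nat.eq_zero_or_pos g with h0 | h0
      · rw [h0, zero_mul] at hed; omega
      · exact h0
    exact ih.trans (Nat.le_of_dvd hg0 hg')

/-- a pair in the set is on one of few lines, or it comes from a child by a step in a primitive
direction `(q, e)` seen from a point `(p / h, 0)` with `p ≤ G` and `h ≤ G²` -/
theorem adm_step2 (G N x : ℕ) (h : Adm G N x) :
    (∃ q e d, 0 < e ∧ e < q ∧ q ≤ G ∧ 0 < d ∧ d ≤ G * G ∧ e * N = q * x + d) ∨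
    (∃ N₀ x' σ q e κ p h, (∃ G', G' ∣ G ∧ G' < G ∧ Adm G' N₀ x') ∧ 0 < x' ∧ x' < N₀ ∧
      N = N₀ + q * σ ∧
      x = x' + e * σ ∧ 0 < σ ∧ 0 < κ ∧ 0 < p ∧ p ≤ G ∧ 0 < h ∧ h ≤ G * G ∧ e = κ * h ∧ e < q ∧
      Nat.Coprime q e ∧ e * N₀ = q * x' + κ * p) := by
  have hG3 := adm_three h
  have hG0 : 0 < G := by omega
  cases h with
  | line _ _ _ q e d hg hx he heq cop hd hdet hdx hdg hmod =>
    obtain ⟨κ, p, h, hκ, hp, hh, hd', he', hcop, hG⟩ := frac hd he
    have hpG : p ∣ G := (hG G).1 hdg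
    have hpG2 : p ≤ G := Nat.le_of_dvd hG0 hpG
    left
    have hq := minor_q (N₀ := N % q) (σ := N / q) cop hdet (Nat.mod_add_div N q).symm hmod hκ hd' he'
    refine ⟨q, e, d, he, heq, by omega, hd, ?_, hdet⟩
    have e1 : d ≤ e * G := Nat.le_of_dvd (Nat.mul_pos he hG0) hdg
    have e2 : e * G ≤ G * G := Nat.mul_le_mul_right G (by omega)
    omega
  | step _ _ _ q e d σ G' N₀ x' he heq cop hd hdet hdx hdg hed hr hN hxx' hy hg' hd'' hM' hy'
      hr' hnd hA =>
    obtain ⟨κ, p, h, hκ, hp, hh, hd', he', hcop, hG⟩ := frac hd he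
    have hpG : p ∣ G := (hG G).1 hdg
    have hpG2 : p ≤ G := Nat.le_of_dvd hG0 hpG
    right
    have hG'G : G' ≤ G := Nat.le_of_dvd hG0 hg'
    have hne : G' ≠ G := by
      intro h0; apply hnd; rw [h0]; exact hdg
    have hdet' : e * N₀ = q * x' + d := by
      have e1 : e * (N₀ + q * σ) = q * (x' + e * σ) + d := by rw [← hN, ← hxx']; exact hdet
      have e2 : e * (N₀ + q * σ) = e * N₀ + q * (e * σ) := by ring
      have e3 : q * (x' + e * σ) = q * x' + q * (e * σ) := by ring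
      omega
    have hhG : h ≤ G * G := by
      have e1 : κ * h < κ * (G * p) := by
        calc κ * h = e := he'.symm
          _ < G * d := hed
          _ = κ * (G * p) := by rw [hd']; ring
      have e2 : h < G * p := Nat.lt_of_mul_lt_mul_left e1
      have e3 : G * p ≤ G * G := Nat.mul_le_mul_left G hpG2
      omega
    refine ⟨N₀, x', σ, q, e, κ, p, h, ⟨G', hg', by omega, hA⟩,
      hy, ?_, hN, hxx', hr, hκ, hp, hpG2, hh, hhG, he', heq, cop, ?_⟩
    · by_contra hcon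
      push Not at hcon
      have e1 : q * N₀ ≤ q * x' := Nat.mul_le_mul_left q hcon
      have e2 : e * N₀ ≤ q * N₀ := Nat.mul_le_mul_right N₀ heq.le
      omega
    · rw [hdet', hd']

end Pool.Agent.Lib.MP_2d59ee_ag
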