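import Mathlib
import Pool.Agent.Lib.MP_2d59ee_ag.Q.Q1

set_option autoImplicit false

/-! The count of low pairs: one step of the recursion. -/

namespace Pool.Agent.Lib.MP_2d59ee_ag

open Finset Count

/-- the number of low pairs up to `X` with running gcd `G` -/
noncomputable def lowS (G X : ℕ) : ℕ :=
  ({p : ℕ × ℕ | p.1 ≤ X ∧ p.2 < p.1 ∧ Adm G p.1 p.2} : Set (ℕ × ℕ)).ncard

/-- the primitive step from `v` seen from `(p / h, 0)` -/
def stp (v : ℕ × ℕ) (h p : ℕ) : ℕ × ℕ :=
  ((h * v.1 - p) / Nat.gcd (h * v.1 - p) (h * v.2), h * v.2 / Nat.gcd (h * v.1 - p) (h * v.2))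

theorem stp_eq {N₀ x' q e κ p h : ℕ} (hx : 0 < x') (hκ : 0 < κ) (he : e = κ * h)
    (cop : Nat.Coprime q e) (hdet : e * N₀ = q * x' + κ * p) : stp (N₀, x') h p = (q, e) := by
  have hκe : κ ∣ e := ⟨h, he⟩
  have hκx : κ ∣ x' := by
    have h1 : κ ∣ q * x' := by
      have h2 : κ ∣ q * x' + κ * p := by rw [← hdet]; exact hκe.mul_right _
      exact (Nat.dvd_add_left (Dvd.intro _ rfl)).1 h2
    have h3 : Nat.Coprime κ q := (Nat.Coprime.coprime_dvd_right hκe cop).symm
    exact h3.dvd_of_dvd_mul_left h1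
  obtain ⟨y, hy⟩ := hκx
  have hy0 : 0 < y := by
    rcases Nat.eq_zero_or_pos y with h0 | h0
    · rw [h0, mul_zero] at hy; omega
    · exact h0
  have h1 : h * N₀ = q * y + p := by
    have h1 : κ * (h * N₀) = κ * (q * y + p) := by
      calc κ * (h * N₀) = (κ * h) * N₀ := by ring
        _ = q * x' + κ * p := by rw [← he]; exact hdet
        _ = κ * (q * y + p) := by rw [hy]; ring
    exact Nat.eq_of_mul_eq_mul_left hκ h1
  have h2 : h * x' = e * y := by rw [hy, he]; ring
  have h3 : h * N₀ - p = q * y := by omega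
  unfold stp
  simp only
  rw [h2, h3, Nat.gcd_mul_right, cop.gcd_eq_one, one_mul, Nat.mul_div_cancel _ hy0,
    Nat.mul_div_cancel _ hy0]

open Classical in
/-- the low pairs as a finset -/
noncomputable def lowA (G X : ℕ) : Finset (ℕ × ℕ) :=
  (box X).filter (fun v => v.2 < v.1 ∧ Adm G v.1 v.2)

open Classical in
theorem mem_lowA {G X : ℕ} {v : ℕ × ℕ} :
    v ∈ lowA G X ↔ v.1 ≤ X ∧ v.2 < v.1 ∧ Adm G v.1 v.2 := by
  unfold lowA
  rw [mem_filter, mem_box]
  constructor
  · rintro ⟨⟨h1, -⟩, h2, h3⟩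
    exact ⟨h1, h2, h3⟩
  · rintro ⟨h1, h2, h3⟩
    exact ⟨⟨h1, by omega⟩, h2, h3⟩

theorem lowS_eq (G X : ℕ) : lowS G X = (lowA G X).card := by
  unfold lowS
  rw [← Set.ncard_coe_finset]
  congr 1
  ext v
  rw [mem_coe, mem_lowA]
  rfl

theorem lowS_le_sq (G X : ℕ) : lowS G X ≤ X ^ 2 := by
  rw [lowS_eq]
  have h1 : lowA G X ⊆ (Icc 1 X) ×ˢ (range X) := by
    intro v hv
    rw [mem_lowA] at hv
    rw [mem_product, mem_Icc, mem_range]
    omega
  refine (card_le_card h1).trans ?_
  rw [card_product, Nat.card_Icc, card_range, Nat.add_sub_cancel, sq]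

theorem lowS_zero {G : ℕ} (hG : G < 3) (X : ℕ) : lowS G X = 0 := by
  rw [lowS_eq, card_eq_zero, eq_empty_iff_forall_notMem]
  intro v hv
  rw [mem_lowA] at hv
  have := adm_three hv.2.2
  omega

/-- the pairs on the lines of the first kind -/
def minF (G X : ℕ) : Finset (ℕ × ℕ) :=
  ((Icc 1 X) ×ˢ ((Icc 1 G) ×ˢ ((Icc 1 G) ×ˢ (Icc 1 (G * G))))).image
    fun w => (w.1, (w.2.2.1 * w.1 - w.2.2.2) / w.2.1)

theorem card_minF (G X : ℕ) : (minF G X).card ≤ G ^ 4 * X := by
  unfold minF
  refine card_image_le.trans ?_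
  simp only [card_product, Nat.card_Icc, Nat.add_sub_cancel]
  exact (by ring : X * (G * (G * (G * G))) = G ^ 4 * X).le

/-- the pairs on the lines with `q ≤ R` -/
def smaF (G X R : ℕ) : Finset (ℕ × ℕ) :=
  (Icc 1 R).biUnion fun q => (range q).biUnion fun κ => (Icc 1 (G * G)).biUnion fun h =>
    (Icc 1 G).biUnion fun p => if Nat.Coprime q (κ * h) then
      (box X).filter (fun v => (κ * h) * v.1 = q * v.2 + κ * p) else ∅

theorem card_smaF (G X R : ℕ) (hRX : R ≤ X) : (smaF G X R).card ≤ 2 * G ^ 3 * R * X := by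
  unfold smaF
  refine card_biUnion_le.trans ?_
  have hq : ∀ q ∈ Icc 1 R, ((range q).biUnion fun κ => (Icc 1 (G * G)).biUnion fun h =>
    (Icc 1 G).biUnion fun p => if Nat.Coprime q (κ * h) then
      (box X).filter (fun v => (κ * h) * v.1 = q * v.2 + κ * p) else ∅).card
      ≤ 2 * G ^ 3 * X := by
    intro q hq
    rw [mem_Icc] at hq
    have h1 : ∀ κ ∈ range q, ((Icc 1 (G * G)).biUnion fun h =>
      (Icc 1 G).biUnion fun p => if Nat.Coprime q (κ * h) then
      (box X).filter (fun v => (κ * h) * v.1 = q * v.2 + κ * p) else ∅).card ≤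
        (G * G) * (G * (X / q + 1)) := by
      intro κ _
      have h2 : ∀ h ∈ Icc 1 (G * G), ((Icc 1 G).biUnion fun p => if Nat.Coprime q (κ * h) then
          (box X).filter (fun v => (κ * h) * v.1 = q * v.2 + κ * p) else ∅).card ≤
            G * (X / q + 1) := by
        intro h _
        refine (card_biUnion_le_card_mul _ _ (X / q + 1) fun p _ => ?_).trans ?_
        · split_ifs with hc
          · exact card_line X q (κ * h) (κ * p) (by omega) hc
          · simp
        · rw [Nat.card_Icc, Nat.add_sub_cancel]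
      refine (card_biUnion_le_card_mul _ _ _ h2).trans ?_
      rw [Nat.card_Icc, Nat.add_sub_cancel]
    refine (card_biUnion_le_card_mul _ _ _ h1).trans ?_
    rw [card_range]
    have h2 : q * (X / q + 1) ≤ 2 * X := by
      have := Nat.mul_div_le X q
      rw [mul_add, mul_one]
      omega
    calc q * ((G * G) * (G * (X / q + 1))) = G ^ 3 * (q * (X / q + 1)) := by ring
      _ ≤ G ^ 3 * (2 * X) := Nat.mul_le_mul_left _ h2
      _ = 2 * G ^ 3 * X := by ring
  refine (sum_le_card_nsmul _ _ _ hq).trans ?_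
  rw [Nat.card_Icc, Nat.add_sub_cancel, smul_eq_mul]
  exact (by ring : R * (2 * G ^ 3 * X) = 2 * G ^ 3 * R * X).le

/-- the pairs with a child and `q > R` -/
noncomputable def larF (G X R : ℕ) : Finset (ℕ × ℕ) :=
  G.properDivisors.biUnion fun G' =>
    ((lowA G' X) ×ˢ ((Icc 1 (G * G)) ×ˢ ((Icc 1 G) ×ˢ (Icc 1 (X / R))))).image
      fun w => (w.1.1 + (stp w.1 w.2.1 w.2.2.1).1 * w.2.2.2,
        w.1.2 + (stp w.1 w.2.1 w.2.2.1).2 * w.2.2.2)

theorem card_larF (G X R : ℕ) : (larF G X R).card ≤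
    G ^ 3 * (X / R) * ∑ G' ∈ G.properDivisors, lowS G' X := by
  unfold larF
  refine card_biUnion_le.trans ?_
  rw [mul_sum]
  refine sum_le_sum fun G' _ => ?_
  refine card_image_le.trans ?_
  simp only [card_product, Nat.card_Icc, Nat.add_sub_cancel]
  rw [lowS_eq]
  exact (by ring : (lowA G' X).card * (G * G * (G * (X / R))) =
    G ^ 3 * (X / R) * (lowA G' X).card).le

/-- one step of the recursion for the number of low pairs -/
theorem low_count_step (G X R : ℕ) (hR : 0 < R) (hRX : R ≤ X) :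
    lowS G X ≤ G ^ 4 * X + 2 * G ^ 3 * R * X +
      G ^ 3 * (X / R) * ∑ G' ∈ G.properDivisors, lowS G' X := by
  have hsub : lowA G X ⊆ minF G X ∪ smaF G X R ∪ larF G X R := by
    intro u hu
    rw [mem_lowA] at hu
    obtain ⟨hu1, hu2, hlow⟩ := hu
    have hub : u ∈ box X := mem_box.2 ⟨hu1, by omega⟩
    rcases adm_step2 G u.1 u.2 hlow with ⟨q, e, d, he, heq, hqG, hd, hdG, hdet⟩ |
      ⟨N₀, x', σ, q, e, κ, p, h, ⟨G', hG'1, hG'2, hlow'⟩, hx0, hxN, e1, e2, hσ, hκ, hp, hpG, hh,
        hhG, he, heq, cop, hdet⟩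
    · refine mem_union_left _ (mem_union_left _ ?_)
      unfold minF
      rw [mem_image]
      refine ⟨(u.1, q, e, d), ?_, ?_⟩
      · simp only [mem_product, mem_Icc]
        refine ⟨⟨by omega, by omega⟩, ⟨by omega, by omega⟩, ⟨by omega, by omega⟩, by omega, hdG⟩
      · refine Prod.ext rfl ?_
        simp only
        rw [hdet, Nat.add_sub_cancel]
        exact Nat.mul_div_cancel_left _ (by omega)
    · have hN₀ : N₀ ≤ X := by rw [e1] at hu1; omega
      have hqσ : q * σ ≤ X := by rw [e1] at hu1; omega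
      rcases Nat.lt_or_ge R q with hq | hq
      · refine mem_union_right _ ?_
        unfold larF
        rw [mem_biUnion]
        refine ⟨G', Nat.mem_properDivisors.2 ⟨hG'1, hG'2⟩, ?_⟩
        rw [mem_image]
        refine ⟨((N₀, x'), h, p, σ), ?_, ?_⟩
        · simp only [mem_product, mem_Icc, mem_lowA]
          refine ⟨⟨hN₀, hxN, hlow'⟩, ⟨hh, hhG⟩, ⟨hp, hpG⟩, hσ, ?_⟩
          rw [Nat.le_div_iff_mul_le hR]
          calc σ * R ≤ σ * q := Nat.mul_le_mul_left σ hq.le
            _ = q * σ := mul_comm _ _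
            _ ≤ X := hqσ
        · simp only
          rw [stp_eq hx0 hκ he cop hdet]
          exact Prod.ext e1.symm e2.symm
      · refine mem_union_left _ (mem_union_right _ ?_)
        unfold smaF
        rw [mem_biUnion]
        refine ⟨q, mem_Icc.2 ⟨by omega, hq⟩, ?_⟩
        rw [mem_biUnion]
        have hκe : κ ≤ e := by rw [he]; exact Nat.le_mul_of_pos_right κ hh
        refine ⟨κ, mem_range.2 (by omega), ?_⟩
        rw [mem_biUnion]
        refine ⟨h, mem_Icc.2 ⟨hh, hhG⟩, ?_⟩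
        rw [mem_biUnion]
        refine ⟨p, mem_Icc.2 ⟨hp, hpG⟩, ?_⟩
        rw [← he, if_pos cop, mem_filter]
        refine ⟨hub, ?_⟩
        rw [e1, e2]
        calc e * (N₀ + q * σ) = e * N₀ + q * (e * σ) := by ring
          _ = q * x' + κ * p + q * (e * σ) := by rw [hdet]
          _ = _ := by ring
  rw [lowS_eq]
  refine (card_le_card hsub).trans ?_
  refine (card_union_le _ _).trans ?_
  refine add_le_add ((card_union_le _ _).trans (add_le_add (card_minF G X)
    (card_smaF G X R hRX))) (card_larF G X R)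

end Pool.Agent.Lib.MP_2d59ee_ag
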