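import Mathlib
import Pool.Agent.Lib.MP_2d59ee_ag.Q.Q2

set_option autoImplicit false

/-! The count of low pairs with a given running gcd. -/

namespace Pool.Agent.Lib.MP_2d59ee_ag

open Finset

/-- the saving in the exponent -/
noncomputable def sav (G : ℕ) : ℝ := 2 * (1 / 2 : ℝ) ^ (ArithmeticFunction.cardFactors G)

theorem omega_divisor {G G' : ℕ} (hG : 0 < G) (h1 : G' ∣ G) (h2 : G' < G) :
    ArithmeticFunction.cardFactors G' + 1 ≤ ArithmeticFunction.cardFactors G ∧ 2 * G' ≤ G := by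
  obtain ⟨c, rfl⟩ := h1
  have hG' : G' ≠ 0 := by rintro rfl; simp at hG
  have hc0 : c ≠ 0 := by rintro rfl; simp at hG
  have hc2 : 2 ≤ c := by
    by_contra hcon
    have : c = 1 := by omega
    rw [this] at h2; omega
  constructor
  · rw [ArithmeticFunction.cardFactors_mul hG' hc0]
    have h3 : ArithmeticFunction.cardFactors c ≠ 0 := by
      intro h4
      rw [ArithmeticFunction.cardFactors_eq_zero_iff_eq_zero_or_one] at h4
      omega
    omega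
  · calc 2 * G' = G' * 2 := by ring
      _ ≤ G' * c := Nat.mul_le_mul_left _ hc2

/-- the number of low pairs up to `X` with running gcd `G` -/
theorem lowS_bound (G : ℕ) : ∀ X : ℕ, 1 ≤ X →
    (lowS G X : ℝ) ≤ 4 * (G : ℝ) ^ 7 * ((X : ℝ) ^ 2 / (X : ℝ) ^ (sav G)) := by
  induction G using Nat.strong_induction_on with
  | _ G ih =>
  intro X hX
  have hX1 : (1 : ℝ) ≤ X := by exact_mod_cast hX
  have hX0 : (0 : ℝ) < X := by linarith
  rcases Nat.lt_or_ge G 3 with hG3 | hG3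
  · rw [lowS_zero hG3]
    push_cast
    positivity
  have hG1 : (1 : ℝ) ≤ G := by exact_mod_cast (by omega : 1 ≤ G)
  have hG0 : (0 : ℝ) < G := by linarith
  have hΩ : 1 ≤ ArithmeticFunction.cardFactors G := by
    have h3 : ArithmeticFunction.cardFactors G ≠ 0 := by
      intro h4
      rw [ArithmeticFunction.cardFactors_eq_zero_iff_eq_zero_or_one] at h4
      omega
    omega
  have hsav0 : 0 < sav G := by unfold sav; positivity
  have hsav1 : sav G ≤ 1 := by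
    unfold sav
    have h1 : (1 / 2 : ℝ) ^ (ArithmeticFunction.cardFactors G) ≤ (1 / 2 : ℝ) ^ 1 :=
      pow_le_pow_of_le_one (by norm_num) (by norm_num) hΩ
    rw [pow_one] at h1
    linarith
  set U : ℝ := (X : ℝ) ^ (sav G) with hU
  have hU1 : 1 ≤ U := Real.one_le_rpow hX1 hsav0.le
  have hU0 : 0 < U := by linarith
  have hUX : U ≤ X := by
    calc (X : ℝ) ^ (sav G) ≤ (X : ℝ) ^ (1 : ℝ) := Real.rpow_le_rpow_of_exponent_le hX1 hsav1
      _ = X := Real.rpow_one _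
  have hG47 : (G : ℝ) ^ 4 ≤ (G : ℝ) ^ 7 := pow_le_pow_right₀ hG1 (by norm_num)
  rcases lt_or_ge U ((G : ℝ) ^ 4) with hbig | hbig
  · -- trivial bound
    have h1 : (lowS G X : ℝ) ≤ (X : ℝ) ^ 2 := by exact_mod_cast lowS_le_sq G X
    have h2 : (X : ℝ) ^ 2 ≤ (G : ℝ) ^ 4 * ((X : ℝ) ^ 2 / U) := by
      rw [← mul_div_assoc, le_div_iff₀ hU0, mul_comm]
      exact mul_le_mul_of_nonneg_right hbig.le (by positivity)
    have h3 : (G : ℝ) ^ 4 * ((X : ℝ) ^ 2 / U) ≤ 4 * (G : ℝ) ^ 7 * ((X : ℝ) ^ 2 / U) := by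
      refine mul_le_mul_of_nonneg_right ?_ (by positivity)
      nlinarith [pow_pos hG0 7]
    linarith
  -- the cut
  set Z : ℝ := (G : ℝ) ^ 4 * X / U with hZ
  have hZ1 : 1 ≤ Z := by
    rw [hZ, le_div_iff₀ hU0, one_mul]
    calc U ≤ X := hUX
      _ = 1 * X := (one_mul _).symm
      _ ≤ (G : ℝ) ^ 4 * X := mul_le_mul_of_nonneg_right (one_le_pow₀ hG1) hX0.le
  have hZX : Z ≤ X := by
    rw [hZ, div_le_iff₀ hU0, mul_comm]
    exact mul_le_mul_of_nonneg_left hbig hX0.le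
  set R : ℕ := ⌊Z⌋₊ with hR
  have hR0 : 0 < R := Nat.floor_pos.2 hZ1
  have hRle : (R : ℝ) ≤ Z := Nat.floor_le (by linarith)
  have hRge : Z ≤ 2 * R := by
    have h1 : Z < R + 1 := Nat.lt_floor_add_one _
    have h2 : (1 : ℝ) ≤ R := by exact_mod_cast hR0
    linarith
  have hR0' : (0 : ℝ) < R := by exact_mod_cast hR0
  have hRX : R ≤ X := by
    have h1 : (R : ℝ) ≤ X := hRle.trans hZX
    exact_mod_cast h1
  have hXR : ((X / R : ℕ) : ℝ) ≤ 2 * U / (G : ℝ) ^ 4 := by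
    have h1 : ((X / R : ℕ) : ℝ) ≤ (X : ℝ) / R := Nat.cast_div_le
    refine h1.trans ?_
    rw [div_le_div_iff₀ hR0' (by positivity)]
    rw [hZ, div_le_iff₀ hU0] at hRge
    linarith
  -- the sum over the proper divisors
  have hsum : ∑ G' ∈ G.properDivisors, (lowS G' X : ℝ) ≤
      (G : ℝ) ^ 8 / 32 * ((X : ℝ) ^ 2 / U ^ 2) := by
    have h1 : ∀ G' ∈ G.properDivisors, (lowS G' X : ℝ) ≤
        (G : ℝ) ^ 7 / 32 * ((X : ℝ) ^ 2 / U ^ 2) := by
      intro G' hG'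
      rw [Nat.mem_properDivisors] at hG'
      obtain ⟨e1, e2⟩ := omega_divisor (by omega) hG'.1 hG'.2
      have e3 := ih G' hG'.2 X hX
      have e4 : 2 * sav G ≤ sav G' := by
        unfold sav
        have h1 : (1 / 2 : ℝ) ^ (ArithmeticFunction.cardFactors G) ≤
            (1 / 2 : ℝ) ^ (ArithmeticFunction.cardFactors G' + 1) :=
          pow_le_pow_of_le_one (by norm_num) (by norm_num) e1
        rw [pow_succ] at h1
        linarith
      have e5 : U ^ 2 ≤ (X : ℝ) ^ (sav G') := by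
        rw [hU, ← Real.rpow_natCast, ← Real.rpow_mul hX0.le]
        refine Real.rpow_le_rpow_of_exponent_le hX1 ?_
        push_cast
        linarith
      have e6 : (X : ℝ) ^ 2 / (X : ℝ) ^ (sav G') ≤ (X : ℝ) ^ 2 / U ^ 2 :=
        div_le_div_of_nonneg_left (by positivity) (by positivity) e5
      have e7 : (G' : ℝ) ≤ G / 2 := by
        have : (2 : ℝ) * G' ≤ G := by exact_mod_cast e2
        linarith
      have e8 : 4 * (G' : ℝ) ^ 7 ≤ (G : ℝ) ^ 7 / 32 := by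
        have h2 : (G' : ℝ) ^ 7 ≤ (G / 2 : ℝ) ^ 7 := pow_le_pow_left₀ (Nat.cast_nonneg _) e7 7
        rw [div_pow] at h2
        linarith
      calc (lowS G' X : ℝ) ≤ 4 * (G' : ℝ) ^ 7 * ((X : ℝ) ^ 2 / (X : ℝ) ^ (sav G')) := e3
        _ ≤ (G : ℝ) ^ 7 / 32 * ((X : ℝ) ^ 2 / U ^ 2) :=
            mul_le_mul e8 e6 (by positivity) (by positivity)
    refine (sum_le_card_nsmul _ _ _ h1).trans ?_
    rw [nsmul_eq_mul]
    have h2 : (G.properDivisors.card : ℝ) ≤ G := by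
      have h3 : G.properDivisors ⊆ Ico 1 G := filter_subset _ _
      have h4 := card_le_card h3
      rw [Nat.card_Ico] at h4
      have : G.properDivisors.card ≤ G := by omega
      exact_mod_cast this
    calc (G.properDivisors.card : ℝ) * ((G : ℝ) ^ 7 / 32 * ((X : ℝ) ^ 2 / U ^ 2))
        ≤ (G : ℝ) * ((G : ℝ) ^ 7 / 32 * ((X : ℝ) ^ 2 / U ^ 2)) :=
          mul_le_mul_of_nonneg_right h2 (by positivity)
      _ = _ := by ring
  have hstep := low_count_step G X R hR0 hRX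
  have hstepR : (lowS G X : ℝ) ≤ (G : ℝ) ^ 4 * X + 2 * (G : ℝ) ^ 3 * R * X +
      (G : ℝ) ^ 3 * ((X / R : ℕ) : ℝ) * ∑ G' ∈ G.properDivisors, (lowS G' X : ℝ) := by
    exact_mod_cast hstep
  have t1 : (G : ℝ) ^ 4 * X ≤ (G : ℝ) ^ 7 * ((X : ℝ) ^ 2 / U) := by
    have h1 : (X : ℝ) ≤ (X : ℝ) ^ 2 / U := by
      rw [le_div_iff₀ hU0, sq]
      exact mul_le_mul_of_nonneg_left hUX hX0.le
    exact mul_le_mul hG47 h1 hX0.le (by positivity)
  have t2 : 2 * (G : ℝ) ^ 3 * R * X ≤ 2 * (G : ℝ) ^ 7 * ((X : ℝ) ^ 2 / U) := by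
    calc 2 * (G : ℝ) ^ 3 * R * X ≤ 2 * (G : ℝ) ^ 3 * Z * X := by gcongr
      _ = 2 * (G : ℝ) ^ 7 * ((X : ℝ) ^ 2 / U) := by rw [hZ]; ring
  have t3 : (G : ℝ) ^ 3 * ((X / R : ℕ) : ℝ) * ∑ G' ∈ G.properDivisors, (lowS G' X : ℝ) ≤
      1 / 16 * ((G : ℝ) ^ 7 * ((X : ℝ) ^ 2 / U)) := by
    calc (G : ℝ) ^ 3 * ((X / R : ℕ) : ℝ) * ∑ G' ∈ G.properDivisors, (lowS G' X : ℝ)
        ≤ (G : ℝ) ^ 3 * (2 * U / (G : ℝ) ^ 4) * ((G : ℝ) ^ 8 / 32 * ((X : ℝ) ^ 2 / U ^ 2)) := by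
          gcongr
      _ = 1 / 16 * ((G : ℝ) ^ 7 * ((X : ℝ) ^ 2 / U)) := by field_simp; ring
  have t4 : 0 ≤ (G : ℝ) ^ 7 * ((X : ℝ) ^ 2 / U) := by positivity
  linarith

end Pool.Agent.Lib.MP_2d59ee_ag
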