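import Mathlib

set_option autoImplicit false

/-! The sum of `1 / g²` over the `g` with many prime factors. -/

namespace Pool.Agent.Lib.MP_2d59ee_ag

open Finset

theorem geo_tail (c K n : ℕ) :
    ∑ a ∈ range n, (if K < a + c then ((1 : ℝ) / 4) ^ a else 0) ≤ (1 / 3) * 4 ^ c / 4 ^ K := by
  have h0 : ∑ a ∈ range n, (if K < a + c then ((1 : ℝ) / 4) ^ a else 0) ≤
      ∑ a ∈ Ico (K + 1 - c) n, ((1 : ℝ) / 4) ^ a := by
    rw [← sum_filter]
    refine sum_le_sum_of_subset_of_nonneg ?_ (fun _ _ _ => by positivity)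
    intro a ha
    rw [mem_filter, mem_range] at ha
    rw [mem_Ico]
    omega
  refine h0.trans ?_
  rw [sum_Ico_eq_sum_range]
  have h1 : ∑ i ∈ range (n - (K + 1 - c)), ((1 : ℝ) / 4) ^ (K + 1 - c + i) =
      ((1 : ℝ) / 4) ^ (K + 1 - c) * ∑ i ∈ range (n - (K + 1 - c)), ((1 : ℝ) / 4) ^ i := by
    rw [mul_sum]
    exact sum_congr rfl fun i _ => pow_add _ _ _
  rw [h1]
  have h2 : ∑ i ∈ range (n - (K + 1 - c)), ((1 : ℝ) / 4) ^ i ≤ 4 / 3 := by
    have h3 := hasSum_geometric_of_lt_one (r := (1 : ℝ) / 4) (by norm_num) (by norm_num)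
    have h4 := sum_le_hasSum (range (n - (K + 1 - c))) (fun i _ => by positivity) h3
    refine h4.trans ?_
    norm_num
  have h3 : ((1 : ℝ) / 4) ^ (K + 1 - c) ≤ 4 ^ c / 4 ^ (K + 1) := by
    rw [one_div, inv_pow, ← one_div, div_le_div_iff₀ (by positivity) (by positivity), one_mul,
      ← pow_add]
    exact pow_le_pow_right₀ (by norm_num) (by omega)
  calc ((1 : ℝ) / 4) ^ (K + 1 - c) * ∑ i ∈ range (n - (K + 1 - c)), ((1 : ℝ) / 4) ^ i
      ≤ (4 ^ c / 4 ^ (K + 1)) * (4 / 3) :=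
        mul_le_mul h3 h2 (sum_nonneg fun _ _ => by positivity) (by positivity)
    _ = (1 / 3) * 4 ^ c / 4 ^ K := by rw [pow_succ]; field_simp

/-- splitting off the primes 2 and 3 -/
theorem split_two_three (g : ℕ) (hg : 0 < g) : ∃ t : ℕ × ℕ × ℕ,
    g = 2 ^ t.2.2 * (3 ^ t.2.1 * t.1) ∧ ¬ 2 ∣ t.1 ∧ ¬ 3 ∣ t.1 := by
  obtain ⟨a, g₁, h1, h2⟩ := Nat.exists_eq_pow_mul_and_not_dvd hg.ne' 2 (by norm_num)
  have hg₁ : g₁ ≠ 0 := by
    rintro rfl
    exact h1 (dvd_zero 2)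
  obtain ⟨b, m, h3, h4⟩ := Nat.exists_eq_pow_mul_and_not_dvd hg₁ 3 (by norm_num)
  refine ⟨(m, b, a), ?_, ?_, h3⟩
  · simp only
    rw [← h4, ← h2]
  · intro h5
    apply h1
    rw [h4]
    exact Dvd.dvd.mul_left h5 _

theorem five_pow_le (m : ℕ) (hm : 0 < m) (h2 : ¬ 2 ∣ m) (h3 : ¬ 3 ∣ m) :
    5 ^ (ArithmeticFunction.cardFactors m) ≤ m := by
  rw [ArithmeticFunction.cardFactors_apply]
  have h : ∀ x ∈ m.primeFactorsList, 5 ≤ x := by
    intro x hx
    have hp := Nat.prime_of_mem_primeFactorsList hx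
    have hd := Nat.dvd_of_mem_primeFactorsList hx
    by_contra hcon
    push Not at hcon
    have h2' := hp.two_le
    have : x = 2 ∨ x = 3 ∨ x = 4 := by omega
    rcases this with h0 | h0 | h0
    · exact h2 (h0 ▸ hd)
    · exact h3 (h0 ▸ hd)
    · rw [h0] at hp
      exact absurd hp (by norm_num)
  have h4 := List.pow_card_le_prod m.primeFactorsList 5 h
  rwa [Nat.prod_primeFactorsList hm.ne'] at h4

theorem four_pow_le (m : ℕ) (hm : 0 < m) (h2 : ¬ 2 ∣ m) (h3 : ¬ 3 ∣ m) :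
    (4 : ℝ) ^ (ArithmeticFunction.cardFactors m) ≤ (m : ℝ) ^ ((9 : ℝ) / 10) := by
  set n := ArithmeticFunction.cardFactors m with hn
  have h5 : (4 : ℝ) ≤ (5 : ℝ) ^ ((9 : ℝ) / 10) := by
    have h6 : ((5 : ℝ) ^ ((9 : ℝ) / 10)) ^ 10 = 5 ^ 9 := by
      rw [← Real.rpow_natCast, ← Real.rpow_mul (by norm_num)]
      norm_num
    by_contra hcon
    push Not at hcon
    have h7 : ((5 : ℝ) ^ ((9 : ℝ) / 10)) ^ 10 < 4 ^ 10 :=
      pow_lt_pow_left₀ hcon (by positivity) (by norm_num)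
    rw [h6] at h7
    norm_num at h7
  have h8 : ((5 : ℝ)) ^ n ≤ m := by exact_mod_cast five_pow_le m hm h2 h3
  calc (4 : ℝ) ^ n ≤ ((5 : ℝ) ^ ((9 : ℝ) / 10)) ^ n := pow_le_pow_left₀ (by norm_num) h5 n
    _ = ((5 : ℝ) ^ n) ^ ((9 : ℝ) / 10) := by
        rw [← Real.rpow_natCast, ← Real.rpow_natCast, ← Real.rpow_mul (by norm_num),
          ← Real.rpow_mul (by norm_num), mul_comm]
    _ ≤ (m : ℝ) ^ ((9 : ℝ) / 10) := Real.rpow_le_rpow (by positivity) h8 (by norm_num)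

/-- the sum of `1 / g²` over the `g` with more than `K` prime factors is `O (4 ^ (-K))` -/
theorem omega_sum : ∃ C : ℝ, 0 ≤ C ∧ ∀ K Y : ℕ,
    ∑ g ∈ (Icc 1 Y).filter (fun g => K < ArithmeticFunction.cardFactors g), 1 / (g : ℝ) ^ 2 ≤
      C / 4 ^ K := by
  have hsum : Summable fun n : ℕ => 1 / (n : ℝ) ^ ((11 : ℝ) / 10) :=
    Real.summable_one_div_nat_rpow.2 (by norm_num)
  set Z : ℝ := ∑' n : ℕ, 1 / (n : ℝ) ^ ((11 : ℝ) / 10) with hZ
  have hZ0 : 0 ≤ Z := tsum_nonneg fun n => by positivity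
  refine ⟨(1 / 3) * (9 / 5) * Z, by positivity, fun K Y => ?_⟩
  classical
  -- the splitting map
  have hex : ∀ g : ℕ, ∃ t : ℕ × ℕ × ℕ, 0 < g →
      g = 2 ^ t.2.2 * (3 ^ t.2.1 * t.1) ∧ ¬ 2 ∣ t.1 ∧ ¬ 3 ∣ t.1 := by
    intro g
    rcases Nat.eq_zero_or_pos g with h | h
    · exact ⟨(0, 0, 0), fun h' => absurd h' (by omega)⟩
    · obtain ⟨t, ht⟩ := split_two_three g h
      exact ⟨t, fun _ => ht⟩
  choose φ hφ using hex
  set S := (Icc 1 Y).filter (fun g => K < ArithmeticFunction.cardFactors g) with hS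
  set T := (Icc 1 Y) ×ˢ ((range (Y + 1)) ×ˢ (range (Y + 1))) with hT
  set F : ℕ × ℕ × ℕ → ℝ := fun t =>
    if ¬ 2 ∣ t.1 ∧ ¬ 3 ∣ t.1 then
      (1 / (t.1 : ℝ) ^ 2) * ((1 / 9) ^ t.2.1 *
        (if K < t.2.2 + (t.2.1 + ArithmeticFunction.cardFactors t.1) then
          ((1 : ℝ) / 4) ^ t.2.2 else 0)) else 0 with hF
  have hF0 : ∀ t, 0 ≤ F t := by
    intro t
    simp only [hF]
    split_ifs <;> positivity
  have hinj : Set.InjOn φ (S : Set ℕ) := by
    intro g hg g' hg' h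
    rw [mem_coe, hS, mem_filter, mem_Icc] at hg hg'
    rw [(hφ g (by omega)).1, (hφ g' (by omega)).1, h]
  have h1 : ∀ g ∈ S, 1 / (g : ℝ) ^ 2 ≤ F (φ g) := by
    intro g hg
    rw [hS, mem_filter, mem_Icc] at hg
    obtain ⟨e1, e2, e3⟩ := hφ g (by omega)
    have hm0 : (φ g).1 ≠ 0 := by
      intro h0
      apply e2
      rw [h0]
      exact dvd_zero 2
    have hΩ : ArithmeticFunction.cardFactors g =
        (φ g).2.2 + ((φ g).2.1 + ArithmeticFunction.cardFactors (φ g).1) := by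
      conv_lhs => rw [e1]
      rw [ArithmeticFunction.cardFactors_mul (by positivity)
          (mul_ne_zero (by positivity) hm0),
        ArithmeticFunction.cardFactors_mul (by positivity) hm0,
        ArithmeticFunction.cardFactors_apply_prime_pow Nat.prime_two,
        ArithmeticFunction.cardFactors_apply_prime_pow Nat.prime_three]
    have hgR : (g : ℝ) = 2 ^ (φ g).2.2 * (3 ^ (φ g).2.1 * ((φ g).1 : ℝ)) := by
      conv_lhs => rw [e1]
      push_cast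
      ring
    simp only [hF]
    rw [if_pos ⟨e2, e3⟩, ← hΩ, if_pos hg.2, hgR]
    have hmR : ((φ g).1 : ℝ) ≠ 0 := by exact_mod_cast hm0
    apply le_of_eq
    rw [one_div_pow, one_div_pow, mul_pow, mul_pow, ← pow_mul, ← pow_mul]
    rw [show ((9 : ℝ)) = 3 ^ 2 by norm_num, show ((4 : ℝ)) = 2 ^ 2 by norm_num, ← pow_mul,
      ← pow_mul, mul_comm 2 (φ g).2.1, mul_comm 2 (φ g).2.2]
    field_simp
  have h2 : ∑ g ∈ S, 1 / (g : ℝ) ^ 2 ≤ ∑ t ∈ T, F t := by
    calc ∑ g ∈ S, 1 / (g : ℝ) ^ 2 ≤ ∑ g ∈ S, F (φ g) := sum_le_sum h1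
      _ = ∑ t ∈ S.image φ, F t := (sum_image hinj).symm
      _ ≤ ∑ t ∈ T, F t := by
          refine sum_le_sum_of_subset_of_nonneg ?_ (fun t _ _ => hF0 t)
          intro t ht
          rw [mem_image] at ht
          obtain ⟨g, hg, rfl⟩ := ht
          rw [hS, mem_filter, mem_Icc] at hg
          obtain ⟨e1, e2, e3⟩ := hφ g (by omega)
          have hm0 : 0 < (φ g).1 := by
            rcases Nat.eq_zero_or_pos (φ g).1 with h0 | h0
            · exact absurd (by rw [h0]; exact dvd_zero 2) e2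
            · exact h0
          have k1 : (φ g).1 ≤ g := by
            apply Nat.le_of_dvd (by omega)
            conv_rhs => rw [e1]
            exact Dvd.intro_left (2 ^ (φ g).2.2 * 3 ^ (φ g).2.1) (by ring)
          have k2 : 3 ^ (φ g).2.1 ≤ g := by
            apply Nat.le_of_dvd (by omega)
            conv_rhs => rw [e1]
            exact Dvd.intro_left (2 ^ (φ g).2.2 * (φ g).1) (by ring)
          have k3 : 2 ^ (φ g).2.2 ≤ g := by
            apply Nat.le_of_dvd (by omega)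
            conv_rhs => rw [e1]
            exact Dvd.intro_left (3 ^ (φ g).2.1 * (φ g).1) (by ring)
          have k4 : (φ g).2.1 < 3 ^ (φ g).2.1 := Nat.lt_pow_self (by norm_num)
          have k5 : (φ g).2.2 < 2 ^ (φ g).2.2 := Nat.lt_pow_self (by norm_num)
          rw [hT, mem_product, mem_product, mem_Icc, mem_range, mem_range]
          omega
  refine h2.trans ?_
  rw [hT, sum_product]
  have h3 : ∀ m ∈ Icc 1 Y, ∑ y ∈ range (Y + 1) ×ˢ range (Y + 1), F (m, y) ≤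
      ((1 / 3) * (9 / 5) / 4 ^ K) * (1 / (m : ℝ) ^ ((11 : ℝ) / 10)) := by
    intro m hm
    rw [mem_Icc] at hm
    have hmR : (0 : ℝ) < m := by exact_mod_cast (by omega : 0 < m)
    by_cases hc : ¬ 2 ∣ m ∧ ¬ 3 ∣ m
    · rw [sum_product]
      simp only [hF, if_pos hc]
      set w := ArithmeticFunction.cardFactors m with hw
      have h4 : ∀ b ∈ range (Y + 1), ∑ a ∈ range (Y + 1), (1 / (m : ℝ) ^ 2) * ((1 / 9) ^ b *
          (if K < a + (b + w) then ((1 : ℝ) / 4) ^ a else 0)) ≤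
          (1 / (m : ℝ) ^ 2) * ((1 / 3) * 4 ^ w / 4 ^ K) * (4 / 9) ^ b := by
        intro b _
        rw [← mul_sum, ← mul_sum]
        have h5 := geo_tail (b + w) K (Y + 1)
        have h6 : (1 / (m : ℝ) ^ 2) * ((1 / 9) ^ b *
            ∑ a ∈ range (Y + 1), (if K < a + (b + w) then ((1 : ℝ) / 4) ^ a else 0)) ≤
            (1 / (m : ℝ) ^ 2) * ((1 / 9) ^ b * ((1 / 3) * 4 ^ (b + w) / 4 ^ K)) := by
          refine mul_le_mul_of_nonneg_left ?_ (by positivity)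
          exact mul_le_mul_of_nonneg_left h5 (by positivity)
        refine h6.trans (le_of_eq ?_)
        rw [pow_add, show ((4 : ℝ) / 9) = (1 / 9) * 4 by norm_num, mul_pow]
        ring
      refine (sum_le_sum h4).trans ?_
      rw [← mul_sum]
      have h5 : ∑ b ∈ range (Y + 1), ((4 : ℝ) / 9) ^ b ≤ 9 / 5 := by
        have h6 := hasSum_geometric_of_lt_one (r := (4 : ℝ) / 9) (by norm_num) (by norm_num)
        have h7 := sum_le_hasSum (range (Y + 1)) (fun i _ => by positivity) h6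
        refine h7.trans ?_
        norm_num
      have h6 := four_pow_le m (by omega) hc.1 hc.2
      rw [← hw] at h6
      have h7 : (1 / (m : ℝ) ^ 2) * ((1 / 3) * 4 ^ w / 4 ^ K) ≤
          (1 / (m : ℝ) ^ 2) * ((1 / 3) * (m : ℝ) ^ ((9 : ℝ) / 10) / 4 ^ K) := by
        gcongr
      have h8 : (1 / (m : ℝ) ^ 2) * (m : ℝ) ^ ((9 : ℝ) / 10) = 1 / (m : ℝ) ^ ((11 : ℝ) / 10) := by
        rw [one_div, one_div, ← Real.rpow_natCast, ← Real.rpow_neg hmR.le, ← Real.rpow_neg hmR.le,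
          ← Real.rpow_add hmR]
        norm_num
      calc (1 / (m : ℝ) ^ 2) * ((1 / 3) * 4 ^ w / 4 ^ K) * ∑ b ∈ range (Y + 1), ((4 : ℝ) / 9) ^ b
          ≤ ((1 / (m : ℝ) ^ 2) * ((1 / 3) * (m : ℝ) ^ ((9 : ℝ) / 10) / 4 ^ K)) * (9 / 5) :=
            mul_le_mul h7 h5 (sum_nonneg fun _ _ => by positivity) (by positivity)
        _ = ((1 / 3) * (9 / 5) / 4 ^ K) * ((1 / (m : ℝ) ^ 2) * (m : ℝ) ^ ((9 : ℝ) / 10)) := by ring
        _ = _ := by rw [h8]
    · have h4 : ∑ y ∈ range (Y + 1) ×ˢ range (Y + 1), F (m, y) = 0 := by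
        refine sum_eq_zero fun y _ => ?_
        simp only [hF]
        rw [if_neg hc]
      rw [h4]
      positivity
  refine (sum_le_sum h3).trans ?_
  rw [← mul_sum]
  have h4 : ∑ m ∈ Icc 1 Y, 1 / (m : ℝ) ^ ((11 : ℝ) / 10) ≤ Z :=
    hsum.sum_le_tsum _ (fun _ _ => by positivity)
  calc ((1 / 3 : ℝ) * (9 / 5) / 4 ^ K) * ∑ m ∈ Icc 1 Y, 1 / (m : ℝ) ^ ((11 : ℝ) / 10)
      ≤ ((1 / 3 : ℝ) * (9 / 5) / 4 ^ K) * Z := mul_le_mul_of_nonneg_left h4 (by positivity)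
    _ = (1 / 3) * (9 / 5) * Z / 4 ^ K := by ring

end Pool.Agent.Lib.MP_2d59ee_ag
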