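import Mathlib
import Pool.Agent.Lib.MP_2d59ee_ag.R.R9
import Pool.Agent.Lib.MP_2d59ee_ag.Q.Q3
import Pool.Agent.Lib.MP_2d59ee_ag.Q.Q4

set_option autoImplicit false

/-! The count of the bad pairs. -/

namespace Pool.Agent.Lib.MP_2d59ee_ag

open Finset Count

open Classical in
/-- the low pairs with gcd `g` -/
noncomputable def lowB (g X : ℕ) : Finset (ℕ × ℕ) :=
  (box X).filter (fun p => 0 < p.1 ∧ p.1 < p.2 ∧ Nat.gcd p.1 p.2 = g ∧ Adm g p.2 (p.2 - p.1))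

open Classical in
theorem mem_lowB {g X : ℕ} {p : ℕ × ℕ} :
    p ∈ lowB g X ↔ p.2 ≤ X ∧ 0 < p.1 ∧ p.1 < p.2 ∧ Nat.gcd p.1 p.2 = g ∧
      Adm g p.2 (p.2 - p.1) := by
  unfold lowB
  rw [mem_filter, mem_box]
  constructor
  · rintro ⟨⟨-, h1⟩, h2⟩
    exact ⟨h1, h2⟩
  · rintro ⟨h1, h2, h3, h4⟩
    exact ⟨⟨by omega, h1⟩, h2, h3, h4⟩

theorem card_lowB_le (g X : ℕ) : (lowB g X).card ≤ lowS g X := by
  rw [lowS_eq]
  refine card_le_card_of_injOn (fun p => (p.2, p.2 - p.1)) ?_ ?_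
  · intro p hp
    rw [mem_coe, mem_lowB] at hp
    rw [mem_coe, mem_lowA]
    obtain ⟨h1, h2, h3, h4, h5⟩ := hp
    exact ⟨h1, by simp only; omega, h5⟩
  · intro p hp p' hp' h
    rw [mem_coe, mem_lowB] at hp hp'
    simp only [Prod.mk.injEq] at h
    refine Prod.ext ?_ h.1
    omega

theorem card_lowB_sq (g X : ℕ) (hg : 0 < g) : ((lowB g X).card : ℝ) ≤ (X : ℝ) ^ 2 * (1 / (g : ℝ) ^ 2) := by
  have h1 : (lowB g X).card ≤ (X / g) ^ 2 := by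
    have h2 : lowB g X ⊆ ((Icc 1 (X / g)) ×ˢ (Icc 1 (X / g))).image
        (fun z => (g * z.1, g * z.2)) := by
      intro p hp
      rw [mem_lowB] at hp
      obtain ⟨h1, h2, h3, h4, -⟩ := hp
      obtain ⟨u, hu⟩ := Nat.gcd_dvd_left p.1 p.2
      obtain ⟨v, hv⟩ := Nat.gcd_dvd_right p.1 p.2
      rw [h4] at hu hv
      have hu0 : 0 < u := by
        rcases Nat.eq_zero_or_pos u with h | h
        · rw [h, mul_zero] at hu; omega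
        · exact h
      have hv0 : 0 < v := by
        rcases Nat.eq_zero_or_pos v with h | h
        · rw [h, mul_zero] at hv; omega
        · exact h
      rw [mem_image]
      refine ⟨(u, v), ?_, Prod.ext hu.symm hv.symm⟩
      rw [mem_product, mem_Icc, mem_Icc]
      refine ⟨⟨hu0, ?_⟩, ⟨hv0, ?_⟩⟩
      · simp only
        rw [Nat.le_div_iff_mul_le hg, mul_comm, ← hu]; omega
      · simp only
        rw [Nat.le_div_iff_mul_le hg, mul_comm, ← hv]; exact h1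
    refine (card_le_card h2).trans (card_image_le.trans ?_)
    rw [card_product, Nat.card_Icc, Nat.add_sub_cancel, sq]
  have hg0 : (0 : ℝ) < g := by exact_mod_cast hg
  have h3 : ((X / g : ℕ) : ℝ) ≤ (X : ℝ) / g := Nat.cast_div_le
  calc ((lowB g X).card : ℝ) ≤ ((X / g : ℕ) : ℝ) ^ 2 := by exact_mod_cast h1
    _ ≤ ((X : ℝ) / g) ^ 2 := pow_le_pow_left₀ (Nat.cast_nonneg _) h3 2
    _ = _ := by rw [div_pow]; ring

/-- the bad pairs are counted by three terms -/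
theorem count_split2 (Bad : ℕ → ℕ → Prop)
    (hBad : ∀ s t, 0 < s → s < t → Bad s t → s ∣ t ∨ Adm (Nat.gcd s t) t (t - s))
    (Y X : ℕ) :
    ({p : ℕ × ℕ | 0 < p.1 ∧ p.1 < p.2 ∧ p.2 ≤ X ∧ Bad p.1 p.2} : Set (ℕ × ℕ)).ncard ≤
      ({p : ℕ × ℕ | 0 < p.1 ∧ p.1 < p.2 ∧ p.2 ≤ X ∧ p.1 ∣ p.2} : Set (ℕ × ℕ)).ncard +
      ({p : ℕ × ℕ | 0 < p.1 ∧ p.1 < p.2 ∧ p.2 ≤ X ∧ Y < Nat.gcd p.1 p.2} : Set (ℕ × ℕ)).ncard +
      ∑ g ∈ Icc 1 Y, (lowB g X).card := by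
  classical
  set A : Set (ℕ × ℕ) := {p | 0 < p.1 ∧ p.1 < p.2 ∧ p.2 ≤ X ∧ p.1 ∣ p.2} with hA
  set D : Set (ℕ × ℕ) := {p | 0 < p.1 ∧ p.1 < p.2 ∧ p.2 ≤ X ∧ Y < Nat.gcd p.1 p.2} with hD
  have hfin : ∀ P : ℕ × ℕ → Prop,
      ({p : ℕ × ℕ | 0 < p.1 ∧ p.1 < p.2 ∧ p.2 ≤ X ∧ P p} : Set (ℕ × ℕ)).Finite := by
    intro P
    apply ((Set.finite_Iic X).prod (Set.finite_Iic X)).subset
    rintro ⟨u, v⟩ ⟨-, h1, h2, -⟩
    simp only at h1 h2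
    exact ⟨by simp only [Set.mem_Iic]; omega, h2⟩
  have hsub : ({p : ℕ × ℕ | 0 < p.1 ∧ p.1 < p.2 ∧ p.2 ≤ X ∧ Bad p.1 p.2} : Set (ℕ × ℕ)) ⊆
      (A ∪ D) ∪ (((Icc 1 Y).biUnion fun g => lowB g X : Finset (ℕ × ℕ)) : Set (ℕ × ℕ)) := by
    rintro p ⟨h1, h2, h3, h4⟩
    rcases hBad p.1 p.2 h1 h2 h4 with h5 | h5
    · exact Or.inl (Or.inl ⟨h1, h2, h3, h5⟩)
    · rcases Nat.lt_or_ge Y (Nat.gcd p.1 p.2) with h6 | h6
      · exact Or.inl (Or.inr ⟨h1, h2, h3, h6⟩)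
      · right
        rw [mem_coe, mem_biUnion]
        exact ⟨Nat.gcd p.1 p.2, mem_Icc.2 ⟨Nat.gcd_pos_of_pos_left _ h1, h6⟩,
          mem_lowB.2 ⟨h3, h1, h2, rfl, h5⟩⟩
  have hfinU : ((A ∪ D) ∪ (((Icc 1 Y).biUnion fun g => lowB g X : Finset (ℕ × ℕ)) :
      Set (ℕ × ℕ))).Finite := ((hfin _).union (hfin _)).union (finite_toSet _)
  refine (Set.ncard_le_ncard hsub hfinU).trans ?_
  refine (Set.ncard_union_le _ _).trans (add_le_add (Set.ncard_union_le _ _) ?_)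
  rw [Set.ncard_coe_finset]
  exact card_biUnion_le

/-- the count of the bad pairs, with the parameters `Y` and `K` -/
theorem rate_main (Bad : ℕ → ℕ → Prop)
    (hBad : ∀ s t, 0 < s → s < t → Bad s t → s ∣ t ∨ Adm (Nat.gcd s t) t (t - s)) :
    ∃ C₁ C₂ : ℝ, 0 ≤ C₁ ∧ 0 ≤ C₂ ∧ ∀ X Y K : ℕ, 1 ≤ X → 1 ≤ Y →
      (({p : ℕ × ℕ | 0 < p.1 ∧ p.1 < p.2 ∧ p.2 ≤ X ∧ Bad p.1 p.2} : Set (ℕ × ℕ)).ncard : ℝ) ≤
        C₁ * (X : ℝ) ^ ((3 : ℝ) / 2) + (X : ℝ) ^ 2 / Y + (X : ℝ) ^ 2 * (C₂ / 4 ^ K) +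
          4 * (Y : ℝ) ^ 8 * ((X : ℝ) ^ 2 / (X : ℝ) ^ (2 * (1 / 2 : ℝ) ^ K)) := by
  obtain ⟨C₁, hC₁, h1⟩ := dvd_tail
  obtain ⟨C₂, hC₂, h2⟩ := omega_sum
  refine ⟨C₁, C₂, hC₁, hC₂, fun X Y K hX hY => ?_⟩
  have hX1 : (1 : ℝ) ≤ X := by exact_mod_cast hX
  have hX0 : (0 : ℝ) < X := by linarith
  have hY1 : (1 : ℝ) ≤ Y := by exact_mod_cast hY
  have e0 := count_split2 Bad hBad Y X
  have e0' : (({p : ℕ × ℕ | 0 < p.1 ∧ p.1 < p.2 ∧ p.2 ≤ X ∧ Bad p.1 p.2} :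
      Set (ℕ × ℕ)).ncard : ℝ) ≤
      ({p : ℕ × ℕ | 0 < p.1 ∧ p.1 < p.2 ∧ p.2 ≤ X ∧ p.1 ∣ p.2} : Set (ℕ × ℕ)).ncard +
      ({p : ℕ × ℕ | 0 < p.1 ∧ p.1 < p.2 ∧ p.2 ≤ X ∧ Y < Nat.gcd p.1 p.2} : Set (ℕ × ℕ)).ncard +
      ∑ g ∈ Icc 1 Y, ((lowB g X).card : ℝ) := by exact_mod_cast e0
  have e1 := h1 X hX
  have e2 := tail Y X (by omega)
  have e3 : ∑ g ∈ Icc 1 Y, ((lowB g X).card : ℝ) ≤ (X : ℝ) ^ 2 * (C₂ / 4 ^ K) +
      4 * (Y : ℝ) ^ 8 * ((X : ℝ) ^ 2 / (X : ℝ) ^ (2 * (1 / 2 : ℝ) ^ K)) := by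
    rw [← sum_filter_add_sum_filter_not (Icc 1 Y)
      (fun g => K < ArithmeticFunction.cardFactors g)]
    refine add_le_add ?_ ?_
    · have f1 : ∑ g ∈ (Icc 1 Y).filter (fun g => K < ArithmeticFunction.cardFactors g),
          ((lowB g X).card : ℝ) ≤
          ∑ g ∈ (Icc 1 Y).filter (fun g => K < ArithmeticFunction.cardFactors g),
            (X : ℝ) ^ 2 * (1 / (g : ℝ) ^ 2) := by
        refine sum_le_sum fun g hg => ?_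
        rw [mem_filter, mem_Icc] at hg
        exact card_lowB_sq g X (by omega)
      refine f1.trans ?_
      rw [← mul_sum]
      exact mul_le_mul_of_nonneg_left (h2 K Y) (by positivity)
    · have f1 : ∀ g ∈ (Icc 1 Y).filter (fun g => ¬ K < ArithmeticFunction.cardFactors g),
          ((lowB g X).card : ℝ) ≤
            4 * (Y : ℝ) ^ 7 * ((X : ℝ) ^ 2 / (X : ℝ) ^ (2 * (1 / 2 : ℝ) ^ K)) := by
        intro g hg
        rw [mem_filter, mem_Icc, not_lt] at hg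
        have f2 : ((lowB g X).card : ℝ) ≤ lowS g X := by exact_mod_cast card_lowB_le g X
        have f3 := lowS_bound g X hX
        have f4 : (g : ℝ) ≤ Y := by exact_mod_cast hg.1.2
        have f5 : 2 * (1 / 2 : ℝ) ^ K ≤ sav g := by
          unfold sav
          have : (1 / 2 : ℝ) ^ K ≤ (1 / 2 : ℝ) ^ (ArithmeticFunction.cardFactors g) :=
            pow_le_pow_of_le_one (by norm_num) (by norm_num) hg.2
          linarith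
        have f6 : (X : ℝ) ^ (2 * (1 / 2 : ℝ) ^ K) ≤ (X : ℝ) ^ (sav g) :=
          Real.rpow_le_rpow_of_exponent_le hX1 f5
        calc ((lowB g X).card : ℝ) ≤ 4 * (g : ℝ) ^ 7 * ((X : ℝ) ^ 2 / (X : ℝ) ^ (sav g)) :=
              f2.trans f3
          _ ≤ _ := by gcongr
      refine (sum_le_card_nsmul _ _ _ f1).trans ?_
      rw [nsmul_eq_mul]
      have f2 : (((Icc 1 Y).filter (fun g => ¬ K < ArithmeticFunction.cardFactors g)).card : ℝ) ≤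
          Y := by
        have f3 := card_filter_le (Icc 1 Y) (fun g => ¬ K < ArithmeticFunction.cardFactors g)
        rw [Nat.card_Icc, Nat.add_sub_cancel] at f3
        exact_mod_cast f3
      calc _ ≤ (Y : ℝ) * (4 * (Y : ℝ) ^ 7 * ((X : ℝ) ^ 2 / (X : ℝ) ^ (2 * (1 / 2 : ℝ) ^ K))) :=
            mul_le_mul_of_nonneg_right f2 (by positivity)
        _ = _ := by ring
  linarith

end Pool.Agent.Lib.MP_2d59ee_ag
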