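import Mathlib
import Pool.Agent.Lib.MP_2d59ee_ag.Q.Q5

set_option autoImplicit false

/-! The rate: at most `C X² (log log X / log X)²` bad pairs. -/

namespace Pool.Agent.Lib.MP_2d59ee_ag

open Finset

theorem bad_le_sq (Bad : ℕ → ℕ → Prop) (X : ℕ) :
    ({p : ℕ × ℕ | 0 < p.1 ∧ p.1 < p.2 ∧ p.2 ≤ X ∧ Bad p.1 p.2} : Set (ℕ × ℕ)).ncard ≤ X ^ 2 := by
  have h1 : ({p : ℕ × ℕ | 0 < p.1 ∧ p.1 < p.2 ∧ p.2 ≤ X ∧ Bad p.1 p.2} : Set (ℕ × ℕ)) ⊆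
      (((Icc 1 X) ×ˢ (Icc 1 X) : Finset (ℕ × ℕ)) : Set (ℕ × ℕ)) := by
    rintro p ⟨h1, h2, h3, -⟩
    rw [mem_coe, mem_product, mem_Icc, mem_Icc]
    omega
  refine (Set.ncard_le_ncard h1 (finite_toSet _)).trans ?_
  rw [Set.ncard_coe_finset, card_product, Nat.card_Icc, Nat.add_sub_cancel, sq]

theorem exp_ge_sq (ℓ : ℝ) (h : 0 ≤ ℓ) : (ℓ / 2 + 1) ^ 2 ≤ Real.exp ℓ := by
  have h1 : ℓ / 2 + 1 ≤ Real.exp (ℓ / 2) := Real.add_one_le_exp _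
  calc (ℓ / 2 + 1) ^ 2 ≤ (Real.exp (ℓ / 2)) ^ 2 := pow_le_pow_left₀ (by positivity) h1 2
    _ = Real.exp ℓ := by rw [← Real.exp_nat_mul]; congr 1; push_cast; ring

/-- the choice of the parameters -/
theorem rate_large (Bad : ℕ → ℕ → Prop)
    (hBad : ∀ s t, 0 < s → s < t → Bad s t → s ∣ t ∨ Adm (Nat.gcd s t) t (t - s)) :
    ∃ C : ℝ, 0 ≤ C ∧ ∀ X : ℕ, 3 ≤ X → 36 ≤ Real.log (Real.log X) →
      (({p : ℕ × ℕ | 0 < p.1 ∧ p.1 < p.2 ∧ p.2 ≤ X ∧ Bad p.1 p.2} : Set (ℕ × ℕ)).ncard : ℝ) ≤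
        C * ((X : ℝ) ^ 2 * (Real.log (Real.log X) / Real.log X) ^ 2) := by
  obtain ⟨C₁, C₂, hC₁, hC₂, hmain⟩ := rate_main Bad hBad
  refine ⟨C₁ + 2 + 400 * C₂ + 4, by positivity, fun X hX hℓ => ?_⟩
  have hXR : (3 : ℝ) ≤ X := by exact_mod_cast hX
  have hX0 : (0 : ℝ) < X := by linarith
  set L := Real.log X with hL
  set ℓ := Real.log L with hℓdef
  have hL0 : 0 < L := Real.log_pos (by linarith)
  have hLe : L = Real.exp ℓ := (Real.exp_log hL0).symm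
  have hLsq : (ℓ / 2 + 1) ^ 2 ≤ L := by rw [hLe]; exact exp_ge_sq ℓ (by linarith)
  have hL361 : 361 ≤ L := by nlinarith
  have hL10 : 10 * ℓ ≤ L := by nlinarith
  have hℓ0 : 0 < ℓ := by linarith
  -- `Y`
  set Y : ℕ := ⌊L ^ 2⌋₊ with hY
  have hY1 : 1 ≤ Y := Nat.floor_pos.2 (by nlinarith)
  have hYle : (Y : ℝ) ≤ L ^ 2 := Nat.floor_le (by positivity)
  have hYge : L ^ 2 ≤ 2 * Y := by
    have h1 : L ^ 2 < Y + 1 := Nat.lt_floor_add_one _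
    have h2 : (1 : ℝ) ≤ Y := by exact_mod_cast hY1
    linarith
  have hY0 : (0 : ℝ) < Y := by exact_mod_cast hY1
  -- `K`
  obtain ⟨K, hK1, hK2⟩ : ∃ K : ℕ, (2 : ℝ) ^ K ≤ L / (10 * ℓ) ∧ L / (10 * ℓ) < (2 : ℝ) ^ (K + 1) := by
    apply exists_nat_pow_near
    · rw [le_div_iff₀ (by positivity), one_mul]; exact hL10
    · norm_num
  have h := hmain X Y K (by omega) hY1
  refine h.trans ?_
  set q := (ℓ / L) ^ 2 with hq
  have hq0 : 0 < q := by positivity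
  have hq1 : 1 / L ^ 2 ≤ q := by
    rw [hq, div_pow]
    exact div_le_div_of_nonneg_right (by nlinarith) (by positivity)
  -- the four terms
  have t1 : C₁ * (X : ℝ) ^ ((3 : ℝ) / 2) ≤ C₁ * ((X : ℝ) ^ 2 * q) := by
    refine mul_le_mul_of_nonneg_left ?_ hC₁
    have e1 : (X : ℝ) ^ ((3 : ℝ) / 2) = (X : ℝ) ^ 2 / Real.exp (L / 2) := by
      rw [eq_div_iff (Real.exp_pos _).ne']
      have e2 : Real.exp (L / 2) = (X : ℝ) ^ ((1 : ℝ) / 2) := by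
        rw [Real.rpow_def_of_pos hX0, hL]; congr 1; ring
      rw [e2, ← Real.rpow_add hX0]
      norm_num
    rw [e1, div_eq_mul_inv]
    refine mul_le_mul_of_nonneg_left (le_trans ?_ hq1) (by positivity)
    rw [← one_div]
    refine div_le_div_of_nonneg_left (by norm_num) (by positivity) ?_
    have e3 : (L / 4 / 2 + 1) ^ 2 ≤ Real.exp (L / 4) := exp_ge_sq (L / 4) (by positivity)
    have e4 : L ≤ Real.exp (L / 4) := by nlinarith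
    calc L ^ 2 ≤ (Real.exp (L / 4)) ^ 2 := pow_le_pow_left₀ hL0.le e4 2
      _ = Real.exp (L / 2) := by rw [← Real.exp_nat_mul]; congr 1; push_cast; ring
  have t2 : (X : ℝ) ^ 2 / Y ≤ 2 * ((X : ℝ) ^ 2 * q) := by
    have e1 : (1 : ℝ) / Y ≤ 2 / L ^ 2 := by
      rw [div_le_div_iff₀ hY0 (by positivity), one_mul]; exact hYge
    calc (X : ℝ) ^ 2 / Y = (X : ℝ) ^ 2 * (1 / Y) := by ring
      _ ≤ (X : ℝ) ^ 2 * (2 / L ^ 2) := mul_le_mul_of_nonneg_left e1 (by positivity)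
      _ = 2 * ((X : ℝ) ^ 2 * (1 / L ^ 2)) := by ring
      _ ≤ 2 * ((X : ℝ) ^ 2 * q) := by gcongr
  have t3 : (X : ℝ) ^ 2 * (C₂ / 4 ^ K) ≤ 400 * C₂ * ((X : ℝ) ^ 2 * q) := by
    have e1 : L / (10 * ℓ) ≤ 2 * 2 ^ K := by rw [pow_succ] at hK2; linarith
    have e2 : L ≤ 20 * ℓ * 2 ^ K := by
      rw [div_le_iff₀ (by positivity)] at e1
      linarith
    have e3 : L ^ 2 ≤ 400 * ℓ ^ 2 * 4 ^ K := by
      calc L ^ 2 ≤ (20 * ℓ * 2 ^ K) ^ 2 := pow_le_pow_left₀ hL0.le e2 2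
        _ = 400 * ℓ ^ 2 * 4 ^ K := by
            rw [mul_pow, mul_pow, ← pow_mul, mul_comm K 2, pow_mul]; norm_num
    have e4 : (1 : ℝ) / 4 ^ K ≤ 400 * q := by
      rw [hq, div_pow, ← mul_div_assoc, div_le_div_iff₀ (by positivity) (by positivity), one_mul]
      exact e3
    calc (X : ℝ) ^ 2 * (C₂ / 4 ^ K) = (X : ℝ) ^ 2 * C₂ * (1 / 4 ^ K) := by ring
      _ ≤ (X : ℝ) ^ 2 * C₂ * (400 * q) := mul_le_mul_of_nonneg_left e4 (by positivity)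
      _ = _ := by ring
  have t4 : 4 * (Y : ℝ) ^ 8 * ((X : ℝ) ^ 2 / (X : ℝ) ^ (2 * (1 / 2 : ℝ) ^ K)) ≤
      4 * ((X : ℝ) ^ 2 * q) := by
    have e1 : 20 * ℓ ≤ L * (2 * (1 / 2 : ℝ) ^ K) := by
      rw [one_div, inv_pow]
      have h2K : (0 : ℝ) < 2 ^ K := by positivity
      rw [le_div_iff₀ (by positivity)] at hK1
      have e2 : 20 * ℓ * 2 ^ K ≤ 2 * L := by nlinarith
      calc 20 * ℓ = (20 * ℓ * 2 ^ K) * (2 ^ K)⁻¹ := by field_simp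
        _ ≤ (2 * L) * (2 ^ K)⁻¹ := mul_le_mul_of_nonneg_right e2 (by positivity)
        _ = L * (2 * (2 ^ K)⁻¹) := by ring
    have e2 : L ^ 20 ≤ (X : ℝ) ^ (2 * (1 / 2 : ℝ) ^ K) := by
      rw [Real.rpow_def_of_pos hX0, ← hL]
      calc L ^ 20 = Real.exp (20 * ℓ) := by
            conv_lhs => rw [hLe]
            rw [← Real.exp_nat_mul]; congr 1
        _ ≤ _ := Real.exp_le_exp.2 e1
    have e3 : (Y : ℝ) ^ 8 ≤ L ^ 16 := by
      calc (Y : ℝ) ^ 8 ≤ (L ^ 2) ^ 8 := pow_le_pow_left₀ hY0.le hYle 8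
        _ = L ^ 16 := by rw [← pow_mul]
    have e4 : (X : ℝ) ^ 2 / (X : ℝ) ^ (2 * (1 / 2 : ℝ) ^ K) ≤ (X : ℝ) ^ 2 / L ^ 20 :=
      div_le_div_of_nonneg_left (by positivity) (by positivity) e2
    calc 4 * (Y : ℝ) ^ 8 * ((X : ℝ) ^ 2 / (X : ℝ) ^ (2 * (1 / 2 : ℝ) ^ K))
        ≤ 4 * L ^ 16 * ((X : ℝ) ^ 2 / L ^ 20) := by gcongr
      _ = 4 * ((X : ℝ) ^ 2 * (1 / L ^ 2)) * (1 / L ^ 2) := by field_simp
      _ ≤ 4 * ((X : ℝ) ^ 2 * q) * 1 := by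
          refine mul_le_mul (by gcongr) ?_ (by positivity) (by positivity)
          rw [div_le_one (by positivity)]
          nlinarith
      _ = _ := mul_one _
  calc C₁ * (X : ℝ) ^ ((3 : ℝ) / 2) + (X : ℝ) ^ 2 / Y + (X : ℝ) ^ 2 * (C₂ / 4 ^ K) +
          4 * (Y : ℝ) ^ 8 * ((X : ℝ) ^ 2 / (X : ℝ) ^ (2 * (1 / 2 : ℝ) ^ K))
      ≤ C₁ * ((X : ℝ) ^ 2 * q) + 2 * ((X : ℝ) ^ 2 * q) + 400 * C₂ * ((X : ℝ) ^ 2 * q) +
          4 * ((X : ℝ) ^ 2 * q) := by linarith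
    _ = (C₁ + 2 + 400 * C₂ + 4) * ((X : ℝ) ^ 2 * q) := by ring

/-- the number of bad pairs up to `X` is at most `C X² (log log X / log X)²` -/
theorem density_rate2 (Bad : ℕ → ℕ → Prop)
    (hBad : ∀ s t, 0 < s → s < t → Bad s t → s ∣ t ∨ Adm (Nat.gcd s t) t (t - s)) :
    ∃ C : ℝ, ∀ X : ℕ, 3 ≤ X →
      (({p : ℕ × ℕ | 0 < p.1 ∧ p.1 < p.2 ∧ p.2 ≤ X ∧ Bad p.1 p.2} : Set (ℕ × ℕ)).ncard : ℝ) ≤
        C * ((X : ℝ) ^ 2 * (Real.log (Real.log X) / Real.log X) ^ 2) := by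
  obtain ⟨C, hC0, hC⟩ := rate_large Bad hBad
  have hlim : Filter.Tendsto (fun n : ℕ => Real.log (Real.log (n : ℝ))) Filter.atTop
      Filter.atTop :=
    Real.tendsto_log_atTop.comp (Real.tendsto_log_atTop.comp tendsto_natCast_atTop_atTop)
  obtain ⟨X₀, hX₀⟩ := Filter.eventually_atTop.1 (hlim.eventually_ge_atTop 36)
  refine ⟨C + ∑ n ∈ range X₀, (Real.log n / Real.log (Real.log n)) ^ 2, fun X hX => ?_⟩
  have hXR : (3 : ℝ) ≤ X := by exact_mod_cast hX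
  have hsum0 : 0 ≤ ∑ n ∈ range X₀, (Real.log n / Real.log (Real.log n)) ^ 2 :=
    sum_nonneg fun _ _ => by positivity
  have hL1 : 1 < Real.log X := by
    rw [Real.lt_log_iff_exp_lt (by linarith)]
    have := Real.exp_one_lt_d9
    linarith
  have hℓ0 : 0 < Real.log (Real.log X) := Real.log_pos hL1
  have hT0 : 0 ≤ (X : ℝ) ^ 2 * (Real.log (Real.log X) / Real.log X) ^ 2 := by positivity
  rcases Nat.lt_or_ge X X₀ with hlt | hge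
  · have h1 : (({p : ℕ × ℕ | 0 < p.1 ∧ p.1 < p.2 ∧ p.2 ≤ X ∧ Bad p.1 p.2} :
        Set (ℕ × ℕ)).ncard : ℝ) ≤ (X : ℝ) ^ 2 := by exact_mod_cast bad_le_sq Bad X
    refine h1.trans ?_
    have h2 : (Real.log X / Real.log (Real.log X)) ^ 2 ≤
        C + ∑ n ∈ range X₀, (Real.log n / Real.log (Real.log n)) ^ 2 := by
      have h3 := single_le_sum (f := fun n : ℕ => (Real.log n / Real.log (Real.log n)) ^ 2)
        (fun _ _ => by positivity) (mem_range.2 hlt)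
      linarith
    calc (X : ℝ) ^ 2 = (Real.log X / Real.log (Real.log X)) ^ 2 *
          ((X : ℝ) ^ 2 * (Real.log (Real.log X) / Real.log X) ^ 2) := by
          field_simp
      _ ≤ _ := mul_le_mul_of_nonneg_right h2 hT0
  · refine (hC X hX (hX₀ X hge)).trans ?_
    exact mul_le_mul_of_nonneg_right (by linarith) hT0

end Pool.Agent.Lib.MP_2d59ee_ag
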