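import Mathlib
import Pool.Agent.Lib.MP_2d59ee_ag.Q.Q6

set_option autoImplicit false

/-! The pairs with a given gcd. -/

namespace Pool.Agent.Lib.MP_2d59ee_ag

open Finset

theorem sav_eq (g : ℕ) :
    sav g = (2 : ℝ) ^ (1 - (ArithmeticFunction.cardFactors g : ℝ)) := by
  unfold sav
  rw [Real.rpow_sub (by norm_num), Real.rpow_one, Real.rpow_natCast, one_div, inv_pow]
  rfl

/-- the pairs with gcd `g` that satisfy the recursive condition -/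
theorem single_gcd (g X : ℕ) (hX : 1 ≤ X) :
    (({p : ℕ × ℕ | 0 < p.1 ∧ p.1 < p.2 ∧ p.2 ≤ X ∧ Nat.gcd p.1 p.2 = g ∧
        Adm g p.2 (p.2 - p.1)} : Set (ℕ × ℕ)).ncard : ℝ) ≤
      4 * (g : ℝ) ^ 7 *
        (X : ℝ) ^ ((2 : ℝ) - (2 : ℝ) ^ (1 - (ArithmeticFunction.cardFactors g : ℝ))) := by
  have hX0 : (0 : ℝ) < X := by exact_mod_cast hX
  have hsub : ({p : ℕ × ℕ | 0 < p.1 ∧ p.1 < p.2 ∧ p.2 ≤ X ∧ Nat.gcd p.1 p.2 = g ∧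
      Adm g p.2 (p.2 - p.1)} : Set (ℕ × ℕ)) ⊆ (lowB g X : Set (ℕ × ℕ)) := by
    rintro p ⟨h1, h2, h3, h4, h5⟩
    rw [mem_coe, mem_lowB]
    exact ⟨h3, h1, h2, h4, h5⟩
  have h1 := Set.ncard_le_ncard hsub (finite_toSet _)
  rw [Set.ncard_coe_finset] at h1
  have h2 : (({p : ℕ × ℕ | 0 < p.1 ∧ p.1 < p.2 ∧ p.2 ≤ X ∧ Nat.gcd p.1 p.2 = g ∧
      Adm g p.2 (p.2 - p.1)} : Set (ℕ × ℕ)).ncard : ℝ) ≤ lowS g X := by
    exact_mod_cast h1.trans (card_lowB_le g X)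
  refine h2.trans ((lowS_bound g X hX).trans (le_of_eq ?_))
  rw [← sav_eq, Real.rpow_sub hX0]
  norm_num

end Pool.Agent.Lib.MP_2d59ee_ag
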